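import Pool.Agent.RGC.Asm

/-!
# RGD module ASMP: disjoint ranges together, for a subgroup
-/

namespace Pool.Agent.RGD

open Pool.Agent.PWI Pool.Agent.RGC

variable {g n : ℕ}

theorem asmP_aux (K : Subgroup (SG g n)) (l : ℕ) (hl : 1 ≤ l) (k : ℕ)
    (h : ∀ t < k, ∃ T : PMod g n, Pool.Agent.RGC.SuppI T (t * l) (t * l + l) ∧
      T.1 (sa (t * l)) ∈ K ∧ T.1 (sb (t * l)) ∈ K) :
    ∃ T : PMod g n, Pool.Agent.RGC.SuppI T 0 (k * l) ∧
      ∀ t < k, T.1 (sa (t * l)) ∈ K ∧ T.1 (sb (t * l)) ∈ K := by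
  induction k with
  | zero =>
    refine ⟨1, ⟨fun k _ => ⟨rfl, rfl⟩, fun j => rfl, fun k h1 h2 => ⟨?_, ?_⟩⟩,
      fun t ht => absurd ht (Nat.not_lt_zero _)⟩
    · exact sa_mem_wi h1 h2
    · exact sb_mem_wi h1 h2
  | succ k ih =>
    have e : (k + 1) * l = k * l + l := by ring
    obtain ⟨S, hS1, hS2⟩ := ih fun t ht => h t (by omega)
    obtain ⟨T, hT1, hT2, hT3⟩ := h k (by omega)
    refine ⟨S * T, ?_, ?_⟩
    · rw [e]
      exact (hS1.mono le_rfl (by omega)).mul (hT1.mono (Nat.zero_le _) le_rfl)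
    · intro t ht
      rw [act_mul2, act_mul2]
      rcases Nat.lt_succ_iff_lt_or_eq.1 ht with h | h
      · have h3 : t * l < k * l := Nat.mul_lt_mul_of_pos_right h hl
        rw [(hT1.1 (t * l) (Or.inl h3)).1, (hT1.1 (t * l) (Or.inl h3)).2]
        exact hS2 t h
      · subst h
        rw [hS1.fix (Or.inr le_rfl) (hT1.mem (sa_mem_wi le_rfl (by omega))),
          hS1.fix (Or.inr le_rfl) (hT1.mem (sb_mem_wi le_rfl (by omega)))]
        exact ⟨hT2, hT3⟩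

/-- Ranges `[t l, (t+1) l)`, `t < k`. -/
theorem asmP (K : Subgroup (SG g n)) (k l : ℕ) (hl : 1 ≤ l) (hg : k * l ≤ g)
    (h : ∀ t < k, ∃ T : PMod g n, Pool.Agent.RGC.SuppI T (t * l) (t * l + l) ∧
      T.1 (sa (t * l)) ∈ K ∧ T.1 (sb (t * l)) ∈ K) :
    ∃ T : PMod g n, ∀ t < k, T.1 (sa t) ∈ K ∧ T.1 (sb t) ∈ K := by
  obtain ⟨T, _, hT⟩ := asmP_aux K l hl k h
  obtain ⟨B, hB, _⟩ := gather (g := g) (n := n) l hl k hg
  refine ⟨T * B, fun t ht => ?_⟩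
  rw [act_mul2, act_mul2, (hB t ht).1, (hB t ht).2]
  exact hT t ht

end Pool.Agent.RGD
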