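import Pool.Agent.RGC.Er

/-!
# RGD module ERA: ordered subproducts hit a point (second moment)

Proof. As RGC/Er with the event `θ (sp_S u) p = q u`.  For a coordinate `i ∈ S` and the other coordinates
fixed, `sp_S u = a * u_i * b`, and the number of `s : G` with `θ (a * s * b) p = q` is `|G| / |X|` (transitive
action: all fibres of `s ↦ θ s p'` have the same size).  So `#{A_S} * d = |G| ^ card ι`,
`#{A_S ∧ A_S'} * d ^ 2 = |G| ^ card ι` for `S ≠ S'` nonempty, `d = |X|`, and
`Σ_u (d N u - L)^2 = (L d - L) |G| ^ card ι ≤ L d |G| ^ card ι`.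
-/

namespace Pool.Agent.RGD

open Finset Pool.Agent.RGC

/-- one free coordinate -/
private theorem er_UA {ι G : Type} [Fintype ι] [DecidableEq ι] [Fintype G] [DecidableEq G]
    [Nonempty G] (d : ℕ) (i : ι) (P Q : (ι → G) → Prop) [DecidablePred P] [DecidablePred Q]
    (hQ : ∀ u y, Q (Function.update u i y) ↔ Q u)
    (hP : ∀ u, (univ.filter fun y => P (Function.update u i y)).card * d = Fintype.card G) :
    (univ.filter fun u => P u ∧ Q u).card * d = (univ.filter fun u => Q u).card := by
  set S : Finset ((ι → G) × G) :=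
    univ.filter fun z => Q z.1 ∧ P (Function.update z.1 i z.2) with hS
  have hinv : ∀ (u : ι → G) (y : G), Function.update (Function.update u i y) i (u i) = u := by
    intro u y
    simp
  have h1 : S.card = (univ.filter fun u => P u ∧ Q u).card * Fintype.card G := by
    rw [← Finset.card_univ (α := G), ← Finset.card_product]
    refine Finset.card_nbij' (fun z => (Function.update z.1 i z.2, z.1 i))
      (fun z => (Function.update z.1 i z.2, z.1 i)) ?_ ?_ ?_ ?_
    · intro z hz
      rw [Finset.mem_coe, hS, Finset.mem_filter] at hz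
      rw [Finset.mem_coe, Finset.mem_product, Finset.mem_filter]
      exact ⟨⟨Finset.mem_univ _, hz.2.2, (hQ _ _).2 hz.2.1⟩, Finset.mem_univ _⟩
    · intro z hz
      rw [Finset.mem_coe, Finset.mem_product, Finset.mem_filter] at hz
      rw [Finset.mem_coe, hS, Finset.mem_filter]
      refine ⟨Finset.mem_univ _, (hQ _ _).2 hz.1.2.2, ?_⟩
      show P (Function.update (Function.update z.1 i z.2) i (z.1 i))
      rw [hinv]
      exact hz.1.2.1
    · intro z _
      refine Prod.ext (hinv _ _) ?_
      simp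
    · intro z _
      refine Prod.ext (hinv _ _) ?_
      simp
  have h2 : S.card * d = (univ.filter fun u => Q u).card * Fintype.card G := by
    have e1 : S.card = ∑ u : ι → G, (univ.filter fun y => Q u ∧ P (Function.update u i y)).card := by
      rw [hS, Finset.card_filter, Fintype.sum_prod_type]
      refine Finset.sum_congr rfl fun u _ => ?_
      rw [Finset.card_filter]
    have e2 : ∀ u : ι → G, (univ.filter fun y => Q u ∧ P (Function.update u i y)).card * d =
        if Q u then Fintype.card G else 0 := by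
      intro u
      by_cases h : Q u
      · simp only [h, true_and, if_true]
        exact hP u
      · simp [h]
    rw [e1, Finset.sum_mul, Finset.sum_congr rfl fun u _ => e2 u, ← Finset.sum_filter,
      Finset.sum_const, smul_eq_mul]
  have hG : 0 < Fintype.card G := Fintype.card_pos
  have h3 : ((univ.filter fun u => P u ∧ Q u).card * d) * Fintype.card G =
      (univ.filter fun u => Q u).card * Fintype.card G := by
    rw [← h2, h1]
    ring
  exact Nat.eq_of_mul_eq_mul_right hG h3

private theorem fib_card {G X : Type} [Group G] [Fintype G] [Fintype X] [DecidableEq X]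
    (θ : G →* Equiv.Perm X) (hθ : ∀ p q : X, ∃ s, θ s p = q) (p q : X) :
    (univ.filter fun y : G => θ y p = q).card * Fintype.card X = Fintype.card G := by
  have h1 : ∀ q' : X, (univ.filter fun y : G => θ y p = q').card =
      (univ.filter fun y : G => θ y p = q).card := by
    intro q'
    obtain ⟨s, hs⟩ := hθ q q'
    refine (Finset.card_nbij' (fun y => s * y) (fun y => s⁻¹ * y) ?_ ?_ ?_ ?_).symm
    · intro y hy
      simp only [Finset.coe_filter, Finset.mem_univ, true_and, Set.mem_ofPred_eq] at hy ⊢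
      rw [map_mul, Equiv.Perm.mul_apply, hy, hs]
    · intro y hy
      simp only [Finset.coe_filter, Finset.mem_univ, true_and, Set.mem_ofPred_eq] at hy ⊢
      rw [map_mul, Equiv.Perm.mul_apply, hy, map_inv, Equiv.Perm.inv_eq_iff_eq, hs]
    · intro y _
      simp
    · intro y _
      simp
  have h2 : Fintype.card G = ∑ q' : X, (univ.filter fun y : G => θ y p = q').card := by
    rw [← Finset.card_univ (α := G)]
    exact Finset.card_eq_sum_card_fiberwise (fun _ _ => Finset.mem_coe.2 (Finset.mem_univ _))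
  rw [h2, Finset.sum_congr rfl fun q' _ => h1 q', Finset.sum_const, Finset.card_univ, smul_eq_mul,
    mul_comm]

private theorem sp_congr {G : Type*} [Group G] (c c' : ℕ → G) (S : Finset ℕ) (m : ℕ)
    (h : ∀ j < m, j ∈ S → c j = c' j) : sp c S m = sp c' S m := by
  induction m with
  | zero => rfl
  | succ m ih =>
    rw [sp, sp, ih fun j hj hS => h j (by omega) hS]
    split_ifs with hm
    · rw [h m (by omega) hm]
    · rfl

private theorem sp_split {G : Type*} [Group G] (c : ℕ → G) (S : Finset ℕ) {i : ℕ} (hi : i ∈ S)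
    (m : ℕ) (him : i < m) : ∃ a b : G, ∀ y, sp (Function.update c i y) S m = a * y * b := by
  induction m with
  | zero => omega
  | succ m ih =>
    rcases Nat.lt_or_ge i m with h | h
    · obtain ⟨a, b, hab⟩ := ih h
      refine ⟨a, b * (if m ∈ S then c m else 1), fun y => ?_⟩
      rw [sp, hab, Function.update_of_ne (by omega : m ≠ i)]
      group
    · have him' : i = m := by omega
      subst him'
      refine ⟨sp c S i, 1, fun y => ?_⟩
      rw [sp, if_pos hi, Function.update_self, mul_one]
      congr 1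
      refine sp_congr _ _ S i fun j hj _ => ?_
      rw [Function.update_of_ne (by omega : j ≠ i)]

theorem erA {ι G X : Type} [Fintype ι] [DecidableEq ι] [Group G] [Fintype G] [DecidableEq G]
    [Fintype X] [DecidableEq X] (θ : G →* Equiv.Perm X) (hθ : ∀ p q : X, ∃ s, θ s p = q)
    (m : ℕ) (e : ℕ → ι) (he : ∀ i < m, ∀ j < m, e i = e j → i = j) (p : X) (q : (ι → G) → X)
    (hq : ∀ u i y, i < m → q (Function.update u (e i) y) = q u) :
    (univ.filter fun u : ι → G => ∀ S ∈ (range m).powerset, S.Nonempty →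
      θ (sp (fun j => u (e j)) S m) p ≠ q u).card * (2 ^ m - 1) ≤
        Fintype.card X * Fintype.card G ^ Fintype.card ι := by
  classical
  set 𝒮 : Finset (Finset ℕ) := (range m).powerset.erase ∅ with h𝒮
  have hmem : ∀ S, S ∈ 𝒮 ↔ S.Nonempty ∧ S ⊆ range m := by
    intro S
    rw [h𝒮, Finset.mem_erase, Finset.mem_powerset, Finset.nonempty_iff_ne_empty]
  have hcard : 𝒮.card = 2 ^ m - 1 := by
    rw [h𝒮, Finset.card_erase_of_mem (Finset.empty_mem_powerset _), Finset.card_powerset,
      Finset.card_range]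
  set g : ℕ := Fintype.card G with hg
  set d : ℕ := Fintype.card X with hd
  set c : ℕ := Fintype.card ι with hc
  have hΩ : Fintype.card (ι → G) = g ^ c := by
    rw [Fintype.card_fun]
  let A : Finset ℕ → (ι → G) → Prop := fun S u => θ (sp (fun j => u (e j)) S m) p = q u
  -- the dependence on one coordinate
  have hupd : ∀ (u : ι → G) (i : ℕ) (y : G) (S : Finset ℕ), i < m →
      sp (fun j => Function.update u (e i) y (e j)) S m =
        sp (Function.update (fun j => u (e j)) i y) S m := by
    intro u i y S him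
    refine sp_congr _ _ S m fun j hj _ => ?_
    by_cases hji : j = i
    · subst hji
      simp
    · have h1 : e j ≠ e i := fun h => hji (he j hj i him h)
      rw [Function.update_of_ne h1, Function.update_of_ne hji]
  have hPA : ∀ (S : Finset ℕ) (i : ℕ), i ∈ S → i < m →
      ∀ u : ι → G, (univ.filter fun y => A S (Function.update u (e i) y)).card * d = g := by
    intro S i hi him u
    obtain ⟨a, b, hab⟩ := sp_split (fun j => u (e j)) S hi m him
    have h0 : (univ.filter fun y => A S (Function.update u (e i) y)) =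
        univ.filter fun y : G => θ y (θ b p) = θ a⁻¹ (q u) := by
      ext y
      simp only [Finset.mem_filter, Finset.mem_univ, true_and]
      change θ (sp (fun j => Function.update u (e i) y (e j)) S m) p =
        q (Function.update u (e i) y) ↔ _
      rw [hupd u i _ S him, hq u i _ him, hab, map_mul, map_mul, Equiv.Perm.mul_apply, Equiv.Perm.mul_apply,
        map_inv, Equiv.Perm.eq_inv_iff_eq]
    rw [h0]
    exact fib_card θ hθ _ _
  have hQA : ∀ (S : Finset ℕ) (i : ℕ), i ∉ S → i < m →
      ∀ (u : ι → G) (y : G), A S (Function.update u (e i) y) ↔ A S u := by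
    intro S i hi him u y
    change θ (sp (fun j => Function.update u (e i) y (e j)) S m) p =
      q (Function.update u (e i) y) ↔ θ (sp (fun j => u (e j)) S m) p = q u
    rw [hupd u i _ S him, hq u i _ him]
    have h1 : sp (Function.update (fun j => u (e j)) i y) S m = sp (fun j => u (e j)) S m := by
      refine sp_congr _ _ S m fun j _ hjS => ?_
      have h2 : j ≠ i := fun h => hi (h ▸ hjS)
      rw [Function.update_of_ne h2]
    rw [h1]
  -- the counts
  have hone : ∀ S ∈ 𝒮, (univ.filter fun u => A S u).card * d = g ^ c := by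
    intro S hS
    obtain ⟨⟨i, hi⟩, hsub⟩ := (hmem S).1 hS
    have him : i < m := Finset.mem_range.1 (hsub hi)
    have h1 := er_UA d (e i) (A S) (fun _ => True) (fun _ _ => Iff.rfl) (hPA S i hi him)
    simp only [and_true, Finset.filter_true] at h1
    rw [Finset.card_univ, hΩ] at h1
    exact h1
  have htwo' : ∀ S ∈ 𝒮, ∀ S' ∈ 𝒮, ∀ i ∈ S, i ∉ S' →
      (univ.filter fun u => A S u ∧ A S' u).card * d * d = g ^ c := by
    intro S hS S' hS' i hi hi'
    have him : i < m := Finset.mem_range.1 (((hmem S).1 hS).2 hi)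
    have h1 := er_UA d (e i) (A S) (A S') (fun u y => hQA S' i hi' him u y) (hPA S i hi him)
    rw [h1, hone S' hS']
  have htwo : ∀ S ∈ 𝒮, ∀ S' ∈ 𝒮, S ≠ S' →
      (univ.filter fun u => A S u ∧ A S' u).card * d * d = g ^ c := by
    intro S hS S' hS' hne
    by_cases h1 : S ⊆ S'
    · have h2 : ¬ S' ⊆ S := fun h => hne (Finset.Subset.antisymm h1 h)
      obtain ⟨i, hi, hi'⟩ := Finset.not_subset.1 h2
      have h3 := htwo' S' hS' S hS i hi hi'
      have h4 : (univ.filter fun u => A S u ∧ A S' u) = univ.filter fun u => A S' u ∧ A S u := by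
        ext u
        simp only [Finset.mem_filter, Finset.mem_univ, true_and]
        exact and_comm
      rw [h4]
      exact h3
    · obtain ⟨i, hi, hi'⟩ := Finset.not_subset.1 h1
      exact htwo' S hS S' hS' i hi hi'
  -- second moment
  let f : Finset ℕ → (ι → G) → ℤ := fun S u => if A S u then 1 else 0
  have hf1 : ∀ S ∈ 𝒮, (d : ℤ) * ∑ u, f S u = (g : ℤ) ^ c := by
    intro S hS
    have h1 := hone S hS
    have h2 : ∑ u, f S u = ((univ.filter fun u => A S u).card : ℤ) := by
      simp only [f]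
      rw [Finset.sum_boole]
    rw [h2, mul_comm]
    exact_mod_cast h1
  have hf2 : ∀ S ∈ 𝒮, ∀ S' ∈ 𝒮, S ≠ S' →
      (d : ℤ) ^ 2 * ∑ u, f S u * f S' u = (g : ℤ) ^ c := by
    intro S hS S' hS' hne
    have h1 := htwo S hS S' hS' hne
    have h2 : ∑ u, f S u * f S' u = ((univ.filter fun u => A S u ∧ A S' u).card : ℤ) := by
      rw [← Finset.sum_boole]
      refine Finset.sum_congr rfl fun u _ => ?_
      simp only [f]
      by_cases ha : A S u <;> by_cases hb : A S' u <;> simp [ha, hb]
    rw [h2]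
    have h3 : (((univ.filter fun u => A S u ∧ A S' u).card * d * d : ℕ) : ℤ) = ((g ^ c : ℕ) : ℤ) := by
      rw [h1]
    push_cast at h3
    linear_combination h3
  have hf3 : ∀ S ∈ 𝒮, (d : ℤ) ^ 2 * ∑ u, f S u * f S u = d * (g : ℤ) ^ c := by
    intro S hS
    have h1 := hf1 S hS
    have h2 : ∑ u, f S u * f S u = ∑ u, f S u := by
      refine Finset.sum_congr rfl fun u _ => ?_
      simp only [f]
      split_ifs <;> norm_num
    rw [h2]
    linear_combination (d : ℤ) * h1
  set L : ℤ := (𝒮.card : ℤ) with hL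
  have hsq : ∑ u : ι → G, ((d : ℤ) * ∑ S ∈ 𝒮, f S u - L) ^ 2 =
      L * (d * (g : ℤ) ^ c) - L * (g : ℤ) ^ c := by
    have h1 : ∀ u : ι → G, ((d : ℤ) * ∑ S ∈ 𝒮, f S u - L) ^ 2 =
        (d : ℤ) ^ 2 * (∑ S ∈ 𝒮, ∑ S' ∈ 𝒮, f S u * f S' u) - 2 * L * ((d : ℤ) * ∑ S ∈ 𝒮, f S u) +
          L ^ 2 := by
      intro u
      rw [← Finset.sum_mul_sum]
      ring
    simp only [h1]
    rw [Finset.sum_add_distrib, Finset.sum_sub_distrib, ← Finset.mul_sum, ← Finset.mul_sum,
      ← Finset.mul_sum, Finset.sum_const, Finset.card_univ, hΩ]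
    have h2 : ∑ u : ι → G, ∑ S ∈ 𝒮, f S u = ∑ S ∈ 𝒮, ∑ u, f S u := Finset.sum_comm
    have h3 : ∑ u : ι → G, ∑ S ∈ 𝒮, ∑ S' ∈ 𝒮, f S u * f S' u =
        ∑ S ∈ 𝒮, ∑ S' ∈ 𝒮, ∑ u, f S u * f S' u := by
      rw [Finset.sum_comm]
      refine Finset.sum_congr rfl fun S _ => ?_
      rw [Finset.sum_comm]
    have h4 : (d : ℤ) * ∑ S ∈ 𝒮, ∑ u, f S u = L * (g : ℤ) ^ c := by
      rw [Finset.mul_sum, Finset.sum_congr rfl hf1, Finset.sum_const, nsmul_eq_mul]
    have h5 : (d : ℤ) ^ 2 * ∑ S ∈ 𝒮, ∑ S' ∈ 𝒮, ∑ u, f S u * f S' u =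
        L * (d * (g : ℤ) ^ c + (L - 1) * (g : ℤ) ^ c) := by
      rw [Finset.mul_sum]
      have h6 : ∀ S ∈ 𝒮, (d : ℤ) ^ 2 * ∑ S' ∈ 𝒮, ∑ u, f S u * f S' u =
          d * (g : ℤ) ^ c + (L - 1) * (g : ℤ) ^ c := by
        intro S hS
        rw [← Finset.add_sum_erase 𝒮 _ hS, mul_add, hf3 S hS, Finset.mul_sum]
        congr 1
        rw [Finset.sum_congr rfl (fun S' hS' => hf2 S hS S' (Finset.mem_of_mem_erase hS')
          (Finset.ne_of_mem_erase hS').symm), Finset.sum_const, nsmul_eq_mul,
          Finset.card_erase_of_mem hS, Nat.cast_sub (Finset.card_pos.2 ⟨S, hS⟩)]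
        push_cast
        rfl
      rw [Finset.sum_congr rfl h6, Finset.sum_const, nsmul_eq_mul]
    rw [h2, h3, h4, h5, nsmul_eq_mul]
    push_cast
    ring
  set B := univ.filter fun u : ι → G => ∀ S ∈ (range m).powerset, S.Nonempty →
      θ (sp (fun j => u (e j)) S m) p ≠ q u with hB
  have hlow : (B.card : ℤ) * L ^ 2 ≤ ∑ u : ι → G, ((d : ℤ) * ∑ S ∈ 𝒮, f S u - L) ^ 2 := by
    have h1 : ∑ u ∈ B, ((d : ℤ) * ∑ S ∈ 𝒮, f S u - L) ^ 2 = (B.card : ℤ) * L ^ 2 := by
      rw [Finset.sum_congr rfl (g := fun _ => L ^ 2), Finset.sum_const, nsmul_eq_mul]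
      intro u hu
      have hu' := (Finset.mem_filter.1 hu).2
      have h2 : ∑ S ∈ 𝒮, f S u = 0 := by
        refine Finset.sum_eq_zero fun S hS => ?_
        obtain ⟨h3, h4⟩ := (hmem S).1 hS
        have h5 : ¬ A S u := hu' S (Finset.mem_powerset.2 h4) h3
        simp only [f]
        rw [if_neg h5]
      rw [h2]
      ring
    rw [← h1]
    exact Finset.sum_le_sum_of_subset_of_nonneg (Finset.subset_univ _) fun u _ _ => sq_nonneg _
  rw [hsq] at hlow
  rw [← hcard]
  have hq0 : (0 : ℤ) ≤ (g : ℤ) ^ c := by positivity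
  have hL0 : 0 ≤ L := by
    rw [hL]
    positivity
  rcases hL0.eq_or_lt with h0 | h0
  · have h1 : 𝒮.card = 0 := by
      have : (𝒮.card : ℤ) = 0 := by rw [← hL]; exact h0.symm
      exact_mod_cast this
    rw [h1, mul_zero]
    exact Nat.zero_le _
  · have h1 : L * ((B.card : ℤ) * L) ≤ L * (d * (g : ℤ) ^ c) := by
      have h2 : 0 ≤ L * (g : ℤ) ^ c := mul_nonneg hL0 hq0
      nlinarith
    have h3 : (B.card : ℤ) * L ≤ d * (g : ℤ) ^ c := le_of_mul_le_mul_left h1 h0
    have h4 : ((B.card * 𝒮.card : ℕ) : ℤ) ≤ ((d * g ^ c : ℕ) : ℤ) := by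
      push_cast
      exact h3
    exact_mod_cast h4

end Pool.Agent.RGD
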