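import Pool.Agent.RGC.Range
import Pool.Agent.RGD.ErA

/-!
# RGD module RANGEX: one range of handles, transitive actions
-/

namespace Pool.Agent.RGD

open Pool.Agent.PWI Finset Pool.Agent.RGC

variable {g n : ℕ}

/-- For all but few tuples, some mapping class supported on the range takes the handle `s` to the stabiliser. -/
theorem range_badX {G X : Type} [Group G] [Fintype G] [DecidableEq G] [Fintype X] [DecidableEq X]
    (θ : G →* Equiv.Perm X) (hθ : ∀ p q : X, ∃ s, θ s p = q) (x0 : X) (s m : ℕ)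
    (h : s + 2 * m + 1 ≤ g) :
    ∃ A : Finset (Fin g ⊕ Fin g → G),
      A.card * (2 ^ m - 1) ≤ 2 * Fintype.card X * Fintype.card G ^ (2 * g) ∧
      ∀ ρ : SG g n →* G, im ρ ∉ A → ∃ T : PMod g n, Pool.Agent.RGC.SuppI T s (s + 2 * m + 1) ∧
        θ (ρ (T.1 (sa s))) x0 = x0 ∧ θ (ρ (T.1 (sb s))) x0 = x0 := by
  classical
  have hg : 0 < g := by omega
  -- the first move and the words
  choose T1 hT1 hT1s using fun S : Finset ℕ => moveA (g := g) (n := n) s (s + 1) (by omega) S m (by omega)
  choose T2 hT2 hT2b hT2s using fun S : Finset ℕ =>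
    moveB (g := g) (n := n) s (s + 1 + m) (by omega) S m (by omega)
  have hw : ∀ S, (T1 S).1 (sb s) ∈ (Pool.Agent.RGC.Wi s (s + 1 + m) : Subgroup (SG g n)) := fun S =>
    ((hT1s S).2.2 s le_rfl (by omega)).2
  choose φ hφ1 hφ2 using fun S : Finset ℕ => word (G := G) s (s + 1 + m) (by omega) _ (hw S)
  -- the first choice
  let P1 : (Fin g ⊕ Fin g → G) → Finset ℕ → Prop := fun u S =>
    S ∈ (range m).powerset ∧ S.Nonempty ∧
      θ (sp (fun j => u (cA hg (s + 1 + j))) S m) x0 = θ (u (cA hg s))⁻¹ x0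
  let F : (Fin g ⊕ Fin g → G) → Finset ℕ := fun u => if h : ∃ S, P1 u S then h.choose else ∅
  have hF : ∀ u, (∃ S, P1 u S) → P1 u (F u) := by
    intro u hu
    simp only [F, dif_pos hu]
    exact hu.choose_spec
  have hFc : ∀ u u' : Fin g ⊕ Fin g → G, P1 u = P1 u' → F u = F u' := by
    intro u u' huu
    simp only [F, huu]
  let A1 : Finset (Fin g ⊕ Fin g → G) := univ.filter fun u => ∀ S ∈ (range m).powerset,
    S.Nonempty → θ (sp (fun j => u (cA hg (s + 1 + j))) S m) x0 ≠ θ (u (cA hg s))⁻¹ x0
  let A2 : Finset (Fin g ⊕ Fin g → G) := univ.filter fun u => ∀ S ∈ (range m).powerset,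
    S.Nonempty → θ (sp (fun j => u (cA hg (s + 1 + m + j))) S m) x0 ≠ θ (φ (F u) u) x0
  have hcard : Fintype.card (Fin g ⊕ Fin g) = 2 * g := by
    rw [Fintype.card_sum, Fintype.card_fin]
    ring
  have h1 : A1.card * (2 ^ m - 1) ≤ Fintype.card X * Fintype.card G ^ (2 * g) := by
    rw [← hcard]
    refine erA θ hθ m (fun j => cA hg (s + 1 + j)) ?_ x0 (fun u => θ (u (cA hg s))⁻¹ x0) ?_
    · intro i hi j hj hij
      have := cA_inj hg (by omega) (by omega) hij
      omega
    · intro u i y hi
      have : cA hg s ≠ cA hg (s + 1 + i) := fun h => by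
        have := cA_inj hg (by omega) (by omega) h
        omega
      simp only [Function.update_of_ne this]
  have h2 : A2.card * (2 ^ m - 1) ≤ Fintype.card X * Fintype.card G ^ (2 * g) := by
    rw [← hcard]
    refine erA θ hθ m (fun j => cA hg (s + 1 + m + j)) ?_ x0 (fun u => θ (φ (F u) u) x0) ?_
    · intro i hi j hj hij
      have := cA_inj hg (by omega) (by omega) hij
      omega
    · intro u i y hi
      have hne : ∀ k, k < s + 1 + m → cA hg k ≠ cA hg (s + 1 + m + i) := fun k hk h => by
        have := cA_inj hg (by omega) (by omega) h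
        omega
      have hP : P1 (Function.update u (cA hg (s + 1 + m + i)) y) = P1 u := by
        funext S
        have e1 : sp (fun j => Function.update u (cA hg (s + 1 + m + i)) y (cA hg (s + 1 + j))) S m =
            sp (fun j => u (cA hg (s + 1 + j))) S m := by
          refine sp_congr S m fun j hj => ?_
          exact Function.update_of_ne (hne _ (by omega)) _ _
        simp only [P1, e1, Function.update_of_ne (hne s (by omega))]
      have e2 : φ (F u) (Function.update u (cA hg (s + 1 + m + i)) y) = φ (F u) u := by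
        refine hφ2 _ _ _ fun k hk1 hk2 => ⟨?_, ?_⟩
        · refine Function.update_of_ne ?_ _ _
          rw [← cA_of_lt hg k.2]
          exact hne _ (by omega)
        · refine Function.update_of_ne ?_ _ _
          simp [cA]
      show θ (φ (F (Function.update u (cA hg (s + 1 + m + i)) y))
        (Function.update u (cA hg (s + 1 + m + i)) y)) x0 = θ (φ (F u) u) x0
      rw [hFc _ _ hP, e2]
  refine ⟨A1 ∪ A2, ?_, ?_⟩
  · calc (A1 ∪ A2).card * (2 ^ m - 1) ≤ (A1.card + A2.card) * (2 ^ m - 1) :=
        Nat.mul_le_mul_right _ (card_union_le _ _)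
      _ = A1.card * (2 ^ m - 1) + A2.card * (2 ^ m - 1) := by ring
      _ ≤ Fintype.card X * Fintype.card G ^ (2 * g) + Fintype.card X * Fintype.card G ^ (2 * g) :=
        Nat.add_le_add h1 h2
      _ = 2 * Fintype.card X * Fintype.card G ^ (2 * g) := by ring
  · intro ρ hρ
    rw [mem_union, not_or] at hρ
    obtain ⟨hρ1, hρ2⟩ := hρ
    simp only [A1, A2, mem_filter, mem_univ, true_and, not_forall, not_not, exists_prop] at hρ1 hρ2
    have hP := hF (im ρ) (by
      obtain ⟨S, h1, h2, h3⟩ := hρ1
      exact ⟨S, h1, h2, h3⟩)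
    obtain ⟨S', hS1, hS2, hS3⟩ := hρ2
    set S := F (im ρ) with hS
    obtain ⟨_, _, hP3⟩ := hP
    have ea : sp (fun j => im ρ (cA hg (s + 1 + j))) S m = sp (fun j => ρ (sa (s + 1 + j))) S m :=
      sp_congr S m fun j hj => im_cA ρ hg (by omega)
    have eb : sp (fun j => im ρ (cA hg (s + 1 + m + j))) S' m =
        sp (fun j => ρ (sa (s + 1 + m + j))) S' m :=
      sp_congr S' m fun j hj => im_cA ρ hg (by omega)
    rw [ea, im_cA ρ hg (by omega)] at hP3
    rw [eb, ← hφ1 S ρ] at hS3
    refine ⟨T1 S * T2 S', ?_, ?_, ?_⟩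
    · have e : s + 2 * m + 1 = s + 1 + m + m := by ring
      rw [e]
      exact ((hT1s S).mono le_rfl (by omega)).mul (hT2s S')
    · rw [act_mul', hT2, hT1, map_mul, map_mul, map_sp, Equiv.Perm.mul_apply, hP3,
        ← Equiv.Perm.mul_apply, ← map_mul, mul_inv_cancel, map_one, Equiv.Perm.one_apply]
    · rw [act_mul', hT2b, map_mul, map_inv]
      have e : (T1 S).1 (sp (fun j => sa (s + 1 + m + j)) S' m) = sp (fun j => sa (s + 1 + m + j)) S' m := by
        refine (hT1s S).fix (r := s + 1 + m) (s := s + 1 + m + m) (Or.inr le_rfl) ?_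
        refine sp_mem _ _ _ _ fun j hj => ?_
        exact Subgroup.subset_closure ⟨_, by omega, by omega, Or.inl rfl⟩
      rw [e, map_mul, map_inv, map_sp, map_mul, Equiv.Perm.mul_apply, ← hS3,
        ← Equiv.Perm.mul_apply, ← map_mul, inv_mul_cancel, map_one, Equiv.Perm.one_apply]

end Pool.Agent.RGD
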