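import Pool.Agent.RGD.Gen
import Pool.Agent.RGD.RangeX
import Pool.Agent.RGD.AsmP

/-!
# RGD module COVER: the bad tuples
-/

namespace Pool.Agent.RGD

open Pool.Agent.PWI Finset Pool.Agent.RGC

variable {g n : ℕ}

theorem block_bad {G X : Type} [Group G] [Fintype G] [DecidableEq G] [Fintype X] [DecidableEq X]
    (θ : G →* Equiv.Perm X) (hθ : ∀ p q : X, ∃ s, θ s p = q) (b m : ℕ) (h : b + m ≤ g) (p q : X) :
    ∃ A : Finset (Fin g ⊕ Fin g → G),
      A.card * (2 ^ m - 1) ≤ Fintype.card X * Fintype.card G ^ (2 * g) ∧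
      ∀ ρ : SG g n →* G, im ρ ∉ A → ∃ v : SG g n, Sp b (b + m) v ∧ θ (ρ v) p = q := by
  classical
  rcases Nat.eq_zero_or_pos g with hg | hg
  · have hm : m = 0 := by omega
    subst hm
    refine ⟨univ, by simp, fun ρ hρ => absurd (mem_univ _) hρ⟩
  have hcard : Fintype.card (Fin g ⊕ Fin g) = 2 * g := by
    rw [Fintype.card_sum, Fintype.card_fin]
    ring
  refine ⟨univ.filter fun u : Fin g ⊕ Fin g → G => ∀ S ∈ (range m).powerset, S.Nonempty →
    θ (sp (fun j => u (cA hg (b + j))) S m) p ≠ q, ?_, ?_⟩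
  · rw [← hcard]
    refine erA θ hθ m (fun j => cA hg (b + j)) ?_ p (fun _ => q) fun _ _ _ _ => rfl
    intro i hi j hj hij
    have := cA_inj hg (by omega) (by omega) hij
    omega
  · intro ρ hρ
    simp only [mem_filter, mem_univ, true_and, not_forall, not_not, exists_prop] at hρ
    obtain ⟨S, hS1, hS2, hS3⟩ := hρ
    have ea : sp (fun j => im ρ (cA hg (b + j))) S m = sp (fun j => ρ (sa (b + j))) S m :=
      sp_congr S m fun j hj => im_cA ρ hg (by omega)
    rw [ea, ← map_sp] at hS3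
    refine ⟨_, ?_, hS3⟩
    rcases sp_prod (g := g) (n := n) b m S h with ⟨h0, _⟩ | h0
    · obtain ⟨i, hi⟩ := hS2
      exact absurd hi (h0 i (mem_range.1 (mem_powerset.1 hS1 hi)))
    · exact h0

theorem cover_bad {G X : Type} [Group G] [Fintype G] [DecidableEq G] [Fintype X] [DecidableEq X]
    (θ : G →* Equiv.Perm X) (hθ : ∀ p q : X, ∃ s, θ s p = q) (x0 : X) (m : ℕ) (h : 3 * m ≤ g) :
    ∃ A : Finset (Fin g ⊕ Fin g → G),
      A.card * (2 ^ m - 1) ≤ 6 * Fintype.card X ^ 2 * Fintype.card G ^ (2 * g) ∧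
      ∀ ρ : SG g n →* G, im ρ ∉ A → ∀ i < 3, ∀ z : X,
        (∃ v : SG g n, Sp (i * m) (i * m + m) v ∧ θ (ρ v) x0 = z) ∧
        ∃ t : SG g n, Sp (i * m) (i * m + m) t ∧ θ (ρ t) z = x0 := by
  classical
  have hr : ∀ (i : ℕ) (p q : X), ∃ A : Finset (Fin g ⊕ Fin g → G), i < 3 →
      (A.card * (2 ^ m - 1) ≤ Fintype.card X * Fintype.card G ^ (2 * g) ∧
      ∀ ρ : SG g n →* G, im ρ ∉ A → ∃ v : SG g n, Sp (i * m) (i * m + m) v ∧ θ (ρ v) p = q) := by
    intro i p q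
    by_cases hi : i < 3
    · have h1 : (i + 1) * m ≤ 3 * m := Nat.mul_le_mul_right _ hi
      have h2 : (i + 1) * m = i * m + m := by ring
      obtain ⟨A, hA⟩ := block_bad (g := g) (n := n) θ hθ (i * m) m (by omega) p q
      exact ⟨A, fun _ => hA⟩
    · exact ⟨∅, fun h => absurd h hi⟩
  choose A hA using hr
  refine ⟨(range 3 ×ˢ (univ : Finset X)).biUnion fun x => A x.1 x0 x.2 ∪ A x.1 x.2 x0, ?_, ?_⟩
  · calc ((range 3 ×ˢ (univ : Finset X)).biUnion fun x => A x.1 x0 x.2 ∪ A x.1 x.2 x0).card * (2 ^ m - 1)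
        ≤ (∑ x ∈ range 3 ×ˢ (univ : Finset X), (A x.1 x0 x.2 ∪ A x.1 x.2 x0).card) * (2 ^ m - 1) :=
          Nat.mul_le_mul_right _ card_biUnion_le
      _ = ∑ x ∈ range 3 ×ˢ (univ : Finset X), (A x.1 x0 x.2 ∪ A x.1 x.2 x0).card * (2 ^ m - 1) :=
          Finset.sum_mul _ _ _
      _ ≤ ∑ _x ∈ range 3 ×ˢ (univ : Finset X), 2 * (Fintype.card X * Fintype.card G ^ (2 * g)) := by
          refine Finset.sum_le_sum fun x hx => ?_
          have hx1 : x.1 < 3 := mem_range.1 (mem_product.1 hx).1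
          have h1 := (hA x.1 x0 x.2 hx1).1
          have h2 := (hA x.1 x.2 x0 hx1).1
          calc (A x.1 x0 x.2 ∪ A x.1 x.2 x0).card * (2 ^ m - 1)
              ≤ ((A x.1 x0 x.2).card + (A x.1 x.2 x0).card) * (2 ^ m - 1) :=
                Nat.mul_le_mul_right _ (card_union_le _ _)
            _ = (A x.1 x0 x.2).card * (2 ^ m - 1) + (A x.1 x.2 x0).card * (2 ^ m - 1) := by ring
            _ ≤ 2 * (Fintype.card X * Fintype.card G ^ (2 * g)) := by omega
      _ = 6 * Fintype.card X ^ 2 * Fintype.card G ^ (2 * g) := by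
          rw [sum_const, card_product, card_range, card_univ, smul_eq_mul]
          ring
  · intro ρ hρ i hi z
    have hn : im ρ ∉ A i x0 z ∪ A i z x0 := fun hmem => hρ
      (mem_biUnion.2 ⟨(i, z), mem_product.2 ⟨mem_range.2 hi, mem_univ _⟩, hmem⟩)
    rw [mem_union, not_or] at hn
    exact ⟨(hA i x0 z hi).2 ρ hn.1, (hA i z x0 hi).2 ρ hn.2⟩

theorem handle_bad {G X : Type} [Group G] [Fintype G] [DecidableEq G] [Fintype X] [DecidableEq X]
    (θ : G →* Equiv.Perm X) (hθ : ∀ p q : X, ∃ s, θ s p = q) (x0 : X) (k m : ℕ)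
    (h : k * (2 * m + 1) ≤ g) :
    ∃ A : Finset (Fin g ⊕ Fin g → G),
      A.card * (2 ^ m - 1) ≤ 2 * k * Fintype.card X * Fintype.card G ^ (2 * g) ∧
      ∀ ρ : SG g n →* G, im ρ ∉ A → ∃ T : PMod g n, ∀ t < k,
        θ (ρ (T.1 (sa t))) x0 = x0 ∧ θ (ρ (T.1 (sb t))) x0 = x0 := by
  classical
  have hr : ∀ t : ℕ, ∃ A : Finset (Fin g ⊕ Fin g → G), t < k →
      (A.card * (2 ^ m - 1) ≤ 2 * Fintype.card X * Fintype.card G ^ (2 * g) ∧
      ∀ ρ : SG g n →* G, im ρ ∉ A → ∃ T : PMod g n,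
        Pool.Agent.RGC.SuppI T (t * (2 * m + 1)) (t * (2 * m + 1) + (2 * m + 1)) ∧
        θ (ρ (T.1 (sa (t * (2 * m + 1))))) x0 = x0 ∧ θ (ρ (T.1 (sb (t * (2 * m + 1))))) x0 = x0) := by
    intro t
    by_cases ht : t < k
    · have h1 : (t + 1) * (2 * m + 1) ≤ k * (2 * m + 1) := Nat.mul_le_mul_right _ ht
      have h2 : (t + 1) * (2 * m + 1) = t * (2 * m + 1) + (2 * m + 1) := by ring
      obtain ⟨A, hA1, hA2⟩ := range_badX (g := g) (n := n) θ hθ x0 (t * (2 * m + 1)) m (by omega)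
      exact ⟨A, fun _ => ⟨hA1, hA2⟩⟩
    · exact ⟨∅, fun h => absurd h ht⟩
  choose A hA using hr
  refine ⟨(range k).biUnion A, ?_, ?_⟩
  · calc ((range k).biUnion A).card * (2 ^ m - 1) ≤ (∑ t ∈ range k, (A t).card) * (2 ^ m - 1) :=
        Nat.mul_le_mul_right _ card_biUnion_le
      _ = ∑ t ∈ range k, (A t).card * (2 ^ m - 1) := Finset.sum_mul _ _ _
      _ ≤ ∑ _t ∈ range k, 2 * Fintype.card X * Fintype.card G ^ (2 * g) :=
        Finset.sum_le_sum fun t ht => (hA t (mem_range.1 ht)).1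
      _ = 2 * k * Fintype.card X * Fintype.card G ^ (2 * g) := by
        rw [sum_const, card_range, smul_eq_mul]
        ring
  · intro ρ hρ
    let K : Subgroup (SG g n) :=
      { carrier := {x | θ (ρ x) x0 = x0}
        one_mem' := by
          show θ (ρ 1) x0 = x0
          rw [map_one, map_one, Equiv.Perm.one_apply]
        mul_mem' := fun {a b} ha hb => by
          show θ (ρ (a * b)) x0 = x0
          rw [map_mul, map_mul, Equiv.Perm.mul_apply, show θ (ρ b) x0 = x0 from hb,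
            show θ (ρ a) x0 = x0 from ha]
        inv_mem' := fun {a} ha => by
          show θ (ρ a⁻¹) x0 = x0
          rw [map_inv, map_inv, Equiv.Perm.inv_eq_iff_eq]
          exact (show θ (ρ a) x0 = x0 from ha).symm }
    exact asmP K k (2 * m + 1) (by omega) h fun t ht => (hA t ht).2 ρ fun hmem => hρ
      (mem_biUnion.2 ⟨t, mem_range.2 ht, hmem⟩)

end Pool.Agent.RGD
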