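import Pool.Agent.RGC.Move
import Pool.Agent.RGC.Range
import Pool.Agent.RCV.SccW

/-!
# RGD module TOPO: simple curves in intervals of handles

`Sp q r x`: `x` is the image of `a_q` under a mapping class supported on the handles `q ≤ k < r`.
-/

namespace Pool.Agent.RGD

open Pool.Agent.PWI Pool.Agent.RGC Pool.Agent.RCV

variable {g n : ℕ}

/-- `x` is the image of `a_q` under a mapping class supported on the handles `q ≤ k < r`. -/
def Sp (q r : ℕ) (x : SG g n) : Prop := ∃ S : PMod g n, Pool.Agent.RGC.SuppI S q r ∧ S.1 (sa q) = x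

theorem Sp.left {q q' r : ℕ} {x : SG g n} (h : Sp q' r x) (hq : q ≤ q') (hr : q' < r) (hrg : r ≤ g) :
    Sp q r x := by
  obtain ⟨S, hS, h1⟩ := h
  obtain ⟨B, hB1, _, hB⟩ := Pool.Agent.RGC.bring (g := g) (n := n) q q' hq (by omega)
  refine ⟨S * B, (hS.mono hq le_rfl).mul (hB.mono le_rfl (by omega)), ?_⟩
  rw [act_mul', hB1, h1]

theorem Sp.right {q r r' : ℕ} {x : SG g n} (h : Sp q r x) (hr : r ≤ r') : Sp q r' x := by
  obtain ⟨S, hS, h1⟩ := h
  exact ⟨S, hS.mono le_rfl hr, h1⟩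

theorem Sp.mem {q r : ℕ} {x : SG g n} (h : Sp q r x) (hq : q < r) :
    x ∈ (Pool.Agent.RGC.Wi q r : Subgroup (SG g n)) := by
  obtain ⟨S, hS, rfl⟩ := h
  exact hS.mem (Subgroup.subset_closure ⟨q, le_rfl, hq, Or.inl rfl⟩)

theorem Sp.mul {p q r : ℕ} {x y : SG g n} (hx : Sp p q x) (hy : Sp q r y) (hpq : p < q) (hqr : q < r)
    (hr : r ≤ g) : Sp p r (x * y) := by
  have hy' := hy.mem hqr
  obtain ⟨S, hS, rfl⟩ := hx
  obtain ⟨S', hS', rfl⟩ := hy
  obtain ⟨W, hW, hWs⟩ := farV (g := g) (n := n) p q hpq (by omega)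
  refine ⟨S * (S' * W), ?_, ?_⟩
  · exact (hS.mono le_rfl (by omega)).mul
      ((hS'.mono (by omega) le_rfl).mul (hWs.mono le_rfl (by omega)))
  · rw [act_mul', act_mul', hW, map_mul, map_mul, (hS'.1 p (Or.inl hpq)).1]
    congr 1
    exact hS.fix (Or.inr le_rfl) hy'

theorem sp_a {q r : ℕ} : Sp q r (sa q : SG g n) := ⟨1, suppI_one _ _, rfl⟩

theorem sp_b {q : ℕ} (hq : q < g) : Sp q (q + 1) ((sb q)⁻¹ : SG g n) := by
  obtain ⟨S, hS, h⟩ := exR (g := g) (n := n) q hq
  exact ⟨S, suppI_of hS, h⟩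

theorem bring0 (q : ℕ) (hq : q < g) : ∃ B : PMod g n, B.1 (sa 0) = sa q ∧ ∀ j, B.1 (sz j) = sz j := by
  obtain ⟨B, hB1, _, hB⟩ := Pool.Agent.RGC.bring (g := g) (n := n) 0 q (Nat.zero_le _) hq
  exact ⟨B, hB1, hB.2.1⟩

theorem Sp.isS {q r : ℕ} {x : SG g n} (h : Sp q r x) (hq : q < g) : IsS x := by
  obtain ⟨S, _, rfl⟩ := h
  obtain ⟨B, hB1, _⟩ := bring0 (g := g) (n := n) q hq
  exact ⟨S * B, by rw [act_mul', hB1]⟩

theorem isS_a0_zp (hg : 2 ≤ g) (j : ℕ) (hj : j < n) : IsS (sa 0 * zp j : SG g n) := by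
  obtain ⟨S, hS, h⟩ := exR (g := g) (n := n) 0 (by omega)
  have h1 := isS_inv (isS_zp (g := g) (n := n) hg j hj)
  have e : ((zp j)⁻¹ * sb 0 : SG g n)⁻¹ = (sb 0)⁻¹ * zp j := by group
  rw [e] at h1
  apply isS_of_act S
  rw [map_mul, h, fix_zp hS.1.2]
  exact h1

theorem Sp.isS_zp {q r : ℕ} {x : SG g n} (h : Sp q r x) (hq : q < g) (hg : 2 ≤ g) (j : ℕ) (hj : j < n) :
    IsS (x * zp j) := by
  obtain ⟨S, hS, rfl⟩ := h
  obtain ⟨B, hB1, hB2⟩ := bring0 (g := g) (n := n) q hq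
  have := (isS_a0_zp hg j hj).act (S * B)
  rw [map_mul, act_mul', hB1, act_mul', fix_zp hB2, fix_zp hS.2.1] at this
  exact this

/-- Subproducts of one block. -/
theorem sp_prod (q m : ℕ) (S : Finset ℕ) (h : q + m ≤ g) :
    ((∀ i < m, i ∉ S) ∧ sp (fun j => (sa (q + j) : SG g n)) S m = 1) ∨
      Sp q (q + m) (sp (fun j => (sa (q + j) : SG g n)) S m) := by
  induction m with
  | zero => exact Or.inl ⟨fun i hi => absurd hi (Nat.not_lt_zero _), rfl⟩
  | succ m ih =>
    by_cases hm : m ∈ S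
    · right
      have e : sp (fun j => (sa (q + j) : SG g n)) S (m + 1) =
          sp (fun j => (sa (q + j) : SG g n)) S m * sa (q + m) := by
        simp only [sp, if_pos hm]
      rw [e]
      rcases ih (by omega) with ⟨_, h1⟩ | h1
      · rw [h1, one_mul]
        exact (sp_a (q := q + m) (r := q + m + 1)).left (by omega) (by omega) (by omega)
      · rcases Nat.eq_zero_or_pos m with rfl | hm0
        · have e0 : sp (fun j => (sa (q + j) : SG g n)) S 0 = 1 := rfl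
          rw [e0, one_mul]
          exact sp_a
        · exact h1.mul (sp_a (q := q + m) (r := q + m + 1)) (by omega) (by omega) (by omega)
    · have e : sp (fun j => (sa (q + j) : SG g n)) S (m + 1) =
          sp (fun j => (sa (q + j) : SG g n)) S m := by
        simp only [sp, if_neg hm, mul_one]
      rw [e]
      rcases ih (by omega) with ⟨h0, h1⟩ | h1
      · left
        refine ⟨fun i hi hiS => ?_, h1⟩
        rcases Nat.lt_succ_iff_lt_or_eq.1 hi with h | h
        · exact h0 i h hiS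
        · subst h
          exact hm hiS
      · exact Or.inr (h1.right (by omega))

/-- The generators used. -/
def GG (g n : ℕ) : Set (SG g n) :=
  {x | ∃ k, k < g ∧ (x = sa k ∨ x = (sb k)⁻¹)} ∪ {x | ∃ j, j < n ∧ x = zp j}

theorem gg_gen : Subgroup.closure (GG g n) = ⊤ := by
  rw [eq_top_iff, ← ww_gen, Subgroup.closure_le]
  have hsub : ∀ x ∈ GG g n, x ∈ Subgroup.closure (GG g n) := fun x hx => Subgroup.subset_closure hx
  have ha : ∀ k, sa k ∈ Subgroup.closure (GG g n) := by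
    intro k
    rcases lt_or_ge k g with h | h
    · exact hsub _ (Or.inl ⟨k, h, Or.inl rfl⟩)
    · rw [sa_big h]; exact Subgroup.one_mem _
  have hb : ∀ k, sb k ∈ Subgroup.closure (GG g n) := by
    intro k
    rcases lt_or_ge k g with h | h
    · have := Subgroup.inv_mem _ (hsub _ (Or.inl ⟨k, h, Or.inr rfl⟩))
      rwa [inv_inv] at this
    · rw [sb_big h]; exact Subgroup.one_mem _
  rintro x ((rfl | rfl) | (⟨k, _, _, rfl | rfl⟩ | ⟨j, hj, rfl⟩))
  · exact ha 0
  · exact hb 0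
  · exact Subgroup.inv_mem _ (ha k)
  · exact hb k
  · exact Subgroup.inv_mem _ (hsub _ (Or.inr ⟨j, hj, rfl⟩))

end Pool.Agent.RGD
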