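import Pool.Agent.RGD.Topo

/-!
# RGD module GEN: three covering blocks

If the simple curves of each of three blocks of handles take the base point to every point and every point to
the base point, the stabiliser of the base point is generated by the simple closed curves in it.
-/

namespace Pool.Agent.RGD

open Pool.Agent.PWI Pool.Agent.RGC Pool.Agent.RCV Equiv

variable {g n : ℕ}

/-- Schreier generators. -/
theorem schreier {P X : Type*} [Group P] (ρ : P →* Perm X) (x0 : X) (N : Subgroup P) (v : X → P)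
    (hv : ∀ y, ρ (v y) x0 = y) (h0 : v x0 ∈ N) (B : Set P) (hB : Subgroup.closure B = ⊤)
    (h : ∀ c ∈ B, ∀ y, (v (ρ c y))⁻¹ * c * v y ∈ N) (x : P) (hx : ρ x x0 = x0) : x ∈ N := by
  let T : Subgroup P :=
    { carrier := {x | ∀ y, (v (ρ x y))⁻¹ * x * v y ∈ N}
      one_mem' := fun y => by
        show (v (ρ 1 y))⁻¹ * 1 * v y ∈ N
        rw [map_one, Perm.one_apply, mul_one, inv_mul_cancel]
        exact N.one_mem
      mul_mem' := fun {a b} ha hb y => by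
        show (v (ρ (a * b) y))⁻¹ * (a * b) * v y ∈ N
        have e : (v (ρ (a * b) y))⁻¹ * (a * b) * v y =
            ((v (ρ a (ρ b y)))⁻¹ * a * v (ρ b y)) * ((v (ρ b y))⁻¹ * b * v y) := by
          rw [map_mul, Perm.mul_apply]
          group
        rw [e]
        exact N.mul_mem (ha _) (hb _)
      inv_mem' := fun {a} ha y => by
        show (v (ρ a⁻¹ y))⁻¹ * a⁻¹ * v y ∈ N
        have h1 := ha (ρ a⁻¹ y)
        have e1 : ρ a (ρ a⁻¹ y) = y := by
          rw [← Perm.mul_apply, ← map_mul, mul_inv_cancel, map_one, Perm.one_apply]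
        rw [e1] at h1
        have h2 := N.inv_mem h1
        have e : ((v y)⁻¹ * a * v (ρ a⁻¹ y))⁻¹ = (v (ρ a⁻¹ y))⁻¹ * a⁻¹ * v y := by group
        rwa [e] at h2 }
  have hT : T = ⊤ := by
    rw [eq_top_iff, ← hB, Subgroup.closure_le]
    exact fun c hc y => h c hc y
  have hxT : x ∈ T := by rw [hT]; exact Subgroup.mem_top x
  have h1 : (v (ρ x x0))⁻¹ * x * v x0 ∈ N := hxT x0
  rw [hx] at h1
  have h2 := N.mul_mem (N.mul_mem h0 h1) (N.inv_mem h0)
  have e : v x0 * ((v x0)⁻¹ * x * v x0) * (v x0)⁻¹ = x := by group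
  rwa [e] at h2

/-- The subgroup generated by the simple closed curves fixing `x0`. -/
def NS {X : Type*} (ρ : SG g n →* Perm X) (x0 : X) : Subgroup (SG g n) :=
  Subgroup.closure {y | IsS y ∧ ρ y x0 = x0}

theorem ns_mem {X : Type*} {ρ : SG g n →* Perm X} {x0 : X} {y : SG g n} (h : IsS y)
    (h1 : ρ y x0 = x0) : y ∈ NS ρ x0 := Subgroup.subset_closure ⟨h, h1⟩

theorem act3 {X : Type*} {ρ : SG g n →* Perm X} {x0 y z : X} {t c v : SG g n} (hv : ρ v x0 = y)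
    (hc : ρ c y = z) (ht : ρ t z = x0) : ρ (t * c * v) x0 = x0 := by
  rw [map_mul, map_mul, Perm.mul_apply, Perm.mul_apply, hv, hc, ht]

theorem act2 {X : Type*} {ρ : SG g n →* Perm X} {x0 z : X} {t v : SG g n} (hv : ρ v x0 = z)
    (ht : ρ t z = x0) : ρ (t * v) x0 = x0 := by
  rw [map_mul, Perm.mul_apply, hv, ht]

theorem isS_rot {t c : SG g n} (h : IsS (c * t)) : IsS (t * c) := by
  have := h.conj t
  have e : t * (c * t) * t⁻¹ = t * c := by group
  rwa [e] at this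

theorem gen3 {X : Type*} (ρ : SG g n →* Perm X) (m : ℕ) (hm0 : 0 < m) (hm : 3 * m ≤ g) (x0 : X)
    (v0 v1 v2 t0 t1 t2 : X → SG g n)
    (sv0 : ∀ z, Sp 0 m (v0 z)) (sv1 : ∀ z, Sp m (2 * m) (v1 z)) (sv2 : ∀ z, Sp (2 * m) (3 * m) (v2 z))
    (st0 : ∀ z, Sp 0 m (t0 z)) (st1 : ∀ z, Sp m (2 * m) (t1 z)) (st2 : ∀ z, Sp (2 * m) (3 * m) (t2 z))
    (hv0 : ∀ z, ρ (v0 z) x0 = z) (hv1 : ∀ z, ρ (v1 z) x0 = z) (hv2 : ∀ z, ρ (v2 z) x0 = z)
    (ht0 : ∀ z, ρ (t0 z) z = x0) (ht1 : ∀ z, ρ (t1 z) z = x0) (ht2 : ∀ z, ρ (t2 z) z = x0)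
    (x : SG g n) (hx : ρ x x0 = x0) : x ∈ NS ρ x0 := by
  -- pairs
  have p10 : ∀ z, t1 z * v0 z ∈ NS ρ x0 := fun z =>
    ns_mem (isS_rot (((sv0 z).mul (st1 z) (by omega) (by omega) (by omega)).isS (by omega)))
      (act2 (hv0 z) (ht1 z))
  have p20 : ∀ z, t2 z * v0 z ∈ NS ρ x0 := fun z =>
    ns_mem (isS_rot ((((sv0 z).right (by omega : m ≤ 2 * m)).mul (st2 z) (by omega) (by omega)
      (by omega)).isS (by omega))) (act2 (hv0 z) (ht2 z))
  have p21 : ∀ z, t2 z * v1 z ∈ NS ρ x0 := fun z =>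
    ns_mem (isS_rot (((sv1 z).mul (st2 z) (by omega) (by omega) (by omega)).isS (by omega)))
      (act2 (hv1 z) (ht2 z))
  have p12 : ∀ z, t1 z * v2 z ∈ NS ρ x0 := fun z =>
    ns_mem (((st1 z).mul (sv2 z) (by omega) (by omega) (by omega)).isS (by omega))
      (act2 (hv2 z) (ht1 z))
  have p02 : ∀ z, t0 z * v2 z ∈ NS ρ x0 := fun z =>
    ns_mem ((((st0 z).right (by omega : m ≤ 2 * m)).mul (sv2 z) (by omega) (by omega)
      (by omega)).isS (by omega)) (act2 (hv2 z) (ht0 z))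
  have c01 : ∀ z, (v0 z)⁻¹ * v1 z ∈ NS ρ x0 := fun z => by
    have e : (v0 z)⁻¹ * v1 z = (t2 z * v0 z)⁻¹ * (t2 z * v1 z) := by group
    rw [e]
    exact Subgroup.mul_mem _ (Subgroup.inv_mem _ (p20 z)) (p21 z)
  have c02 : ∀ z, (v0 z)⁻¹ * v2 z ∈ NS ρ x0 := fun z => by
    have e : (v0 z)⁻¹ * v2 z = (t1 z * v0 z)⁻¹ * (t1 z * v2 z) := by group
    rw [e]
    exact Subgroup.mul_mem _ (Subgroup.inv_mem _ (p10 z)) (p12 z)
  -- one generator
  have main0 : ∀ c : SG g n, (∀ y z, ρ c y = z → t1 z * c * v0 y ∈ NS ρ x0) → ∀ y,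
      (v0 (ρ c y))⁻¹ * c * v0 y ∈ NS ρ x0 := by
    intro c h y
    have e : (v0 (ρ c y))⁻¹ * c * v0 y =
        (t1 (ρ c y) * v0 (ρ c y))⁻¹ * (t1 (ρ c y) * c * v0 y) := by group
    rw [e]
    exact Subgroup.mul_mem _ (Subgroup.inv_mem _ (p10 _)) (h _ _ rfl)
  have main1 : ∀ c : SG g n, (∀ y z, ρ c y = z → t2 z * c * v1 y ∈ NS ρ x0) → ∀ y,
      (v0 (ρ c y))⁻¹ * c * v0 y ∈ NS ρ x0 := by
    intro c h y
    have e : (v0 (ρ c y))⁻¹ * c * v0 y =
        ((v0 (ρ c y))⁻¹ * v1 (ρ c y)) * ((t2 (ρ c y) * v1 (ρ c y))⁻¹ *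
          (t2 (ρ c y) * c * v1 y)) * ((v0 y)⁻¹ * v1 y)⁻¹ := by group
    rw [e]
    exact Subgroup.mul_mem _ (Subgroup.mul_mem _ (c01 _)
      (Subgroup.mul_mem _ (Subgroup.inv_mem _ (p21 _)) (h _ _ rfl))) (Subgroup.inv_mem _ (c01 _))
  have main2 : ∀ c : SG g n, (∀ y z, ρ c y = z → t0 z * c * v2 y ∈ NS ρ x0) → ∀ y,
      (v0 (ρ c y))⁻¹ * c * v0 y ∈ NS ρ x0 := by
    intro c h y
    have e : (v0 (ρ c y))⁻¹ * c * v0 y =
        ((v0 (ρ c y))⁻¹ * v2 (ρ c y)) * ((t0 (ρ c y) * v2 (ρ c y))⁻¹ *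
          (t0 (ρ c y) * c * v2 y)) * ((v0 y)⁻¹ * v2 y)⁻¹ := by group
    rw [e]
    exact Subgroup.mul_mem _ (Subgroup.mul_mem _ (c02 _)
      (Subgroup.mul_mem _ (Subgroup.inv_mem _ (p02 _)) (h _ _ rfl))) (Subgroup.inv_mem _ (c02 _))
  have letter : ∀ k, k < g → ∀ c : SG g n, Sp k (k + 1) c → ∀ y,
      (v0 (ρ c y))⁻¹ * c * v0 y ∈ NS ρ x0 := by
    intro k hk c hc
    rcases lt_or_ge k m with h1 | h1
    · refine main1 c fun y z hyz => ns_mem ?_ (act3 (hv1 y) hyz (ht2 z))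
      rw [mul_assoc]
      exact isS_rot ((((hc.right (by omega : k + 1 ≤ m)).mul (sv1 y) (by omega) (by omega)
        (by omega)).mul (st2 z) (by omega) (by omega) (by omega)).isS (by omega))
    · rcases lt_or_ge k (2 * m) with h2 | h2
      · refine main2 c fun y z hyz => ns_mem ?_ (act3 (hv2 y) hyz (ht0 z))
        exact ((((st0 z).right h1).mul (hc.right (by omega : k + 1 ≤ 2 * m)) (by omega) (by omega)
          (by omega)).mul (sv2 y) (by omega) (by omega) (by omega)).isS (by omega)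
      · refine main0 c fun y z hyz => ns_mem ?_ (act3 (hv0 y) hyz (ht1 z))
        apply isS_rot
        rw [← mul_assoc]
        exact ((((sv0 y).mul (st1 z) (by omega) (by omega) (by omega)).right h2).mul hc (by omega)
          (by omega) (by omega)).isS (by omega)
  refine schreier ρ x0 (NS ρ x0) v0 hv0 (ns_mem ((sv0 x0).isS (by omega)) (hv0 x0)) (GG g n) gg_gen
    ?_ x hx
  rintro c (⟨k, hk, rfl | rfl⟩ | ⟨j, hj, rfl⟩)
  · exact letter k hk _ sp_a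
  · exact letter k hk _ (sp_b hk)
  · refine main0 _ fun y z hyz => ns_mem ?_ (act3 (hv0 y) hyz (ht1 z))
    apply isS_rot
    rw [← mul_assoc]
    exact (((sv0 y).mul (st1 z) (by omega) (by omega) (by omega)).isS_zp (by omega) (by omega) j hj)

end Pool.Agent.RGD
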