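import Pool.Agent.PWI.State
import Pool.Agent.PWM.Chain3

/-!
# RGD: the good homomorphisms
-/

namespace Pool.Agent.RGD

open Pool.Agent.PWI

/-- The elements of the fundamental group which fix the point `i`. -/
def stab {G : Type} [Group G] {g n d : ℕ} (θ : G →* Equiv.Perm (Fin d)) (ρ : Pi1 g n →* G) (i : Fin d) :
    Subgroup (Pi1 g n) where
  carrier := {x | θ (ρ x) i = i}
  one_mem' := by
    show θ (ρ 1) i = i
    rw [map_one, map_one, Equiv.Perm.one_apply]
  mul_mem' := fun {a b} ha hb => by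
    show θ (ρ (a * b)) i = i
    rw [map_mul, map_mul, Equiv.Perm.mul_apply, show θ (ρ b) i = i from hb,
      show θ (ρ a) i = i from ha]
  inv_mem' := fun {a} ha => by
    show θ (ρ a⁻¹) i = i
    rw [map_inv, map_inv, Equiv.Perm.inv_eq_iff_eq]
    exact (show θ (ρ a) i = i from ha).symm

/-- Every homomorphism from `H` to the integers is trivial on all point pushes in `H`. -/
def Kills {g n : ℕ} (H : Subgroup (Mcg g n)) : Prop :=
  ∀ (f : H →* Multiplicative ℤ) (x : Pi1 g n) (hx : pushPt x ∈ H), f ⟨pushPt x, hx⟩ = 1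

/-- `θ ∘ ρ` is transitive; every point stabiliser `K` is generated by the nonseparating simple closed curves
in it; and every finite index `H` kills the point pushes, if it contains the point pushes along the simple
closed curves in `K`, or along the commutators of a normal finite index `M` joined to `K` by a chain of
cost `k`. -/
def Good {G : Type} [Group G] {g n d : ℕ} (θ : G →* Equiv.Perm (Fin d)) (k : ℕ) (ρ : Pi1 g n →* G) : Prop :=
  (∀ i j : Fin d, ∃ x : Pi1 g n, θ (ρ x) i = j) ∧ ∀ i : Fin d,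
    stab θ ρ i = Subgroup.closure {y | y ∈ stab θ ρ i ∧ ∃ T : Mcg g n, y = T.act (loopA 0)} ∧
    ∀ H : Subgroup (Mcg g n), H.FiniteIndex →
      ((∀ T : Mcg g n, T.act (loopA 0) ∈ stab θ ρ i → pushPt (T.act (loopA 0)) ∈ H) ∨
        ∃ M : Subgroup (Pi1 g n), M.Normal ∧ M.FiniteIndex ∧ LinCost (stab θ ρ i) M k ∧
          ∀ x ∈ M, ∀ y ∈ M, pushPt (x * y * x⁻¹ * y⁻¹) ∈ H) → Kills H

end Pool.Agent.RGD
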