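import Pool.Agent.RGD.Cover
import Pool.Agent.RGD.Good
import Pool.Agent.RGC.Fin
import Pool.Agent.PWM.Fin4

/-!
# RGD module MAIN
-/

namespace Pool.Agent.RGD

open Pool.Agent.PWI Finset Pool.Agent.RGC Equiv

variable {g n : ℕ}

/-- Point pushes along a subgroup generated by simple closed curves are killed. -/
theorem kill_sg1 (hg : 3 ≤ g) {d : ℕ} (ρ : SG g n →* Perm (Fin d)) (i : Fin d)
    (hgen : ∀ x, ρ x i = i → x ∈ NS ρ i) (H : Subgroup (PMod g n)) [H.FiniteIndex]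
    (hH : ∀ S : PMod g n, ρ (S.1 (sa 0)) i = i → push (S.1 (sa 0)) ∈ H)
    (f : H →* Multiplicative ℤ) (x : SG g n) (hx : push x ∈ H) : f ⟨push x, hx⟩ = 1 := by
  have key : ∀ y : SG g n, ρ y i = i → ∃ h : push y ∈ H, f ⟨push y, h⟩ = 1 := by
    intro y hy
    have hmem := hgen y hy
    clear hy
    unfold NS at hmem
    induction hmem using Subgroup.closure_induction with
    | mem y hy =>
      obtain ⟨⟨S, rfl⟩, hp⟩ := hy
      have h := hH S hp
      refine ⟨h, ?_⟩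
      have h' : push (S.1 (sa 0)) ^ 1 ∈ H := by rw [pow_one]; exact h
      have := sv hg H f (S.1 (sa 0)) ⟨S, rfl⟩ 1 h'
      have e : (⟨push (S.1 (sa 0)), h⟩ : H) = ⟨push (S.1 (sa 0)) ^ 1, h'⟩ :=
        Subtype.ext (pow_one _).symm
      rw [e]; exact this
    | one =>
      have h : push (1 : SG g n) ∈ H := by rw [map_one]; exact H.one_mem
      refine ⟨h, ?_⟩
      have e : (⟨push (1 : SG g n), h⟩ : H) = 1 := Subtype.ext (map_one _)
      rw [e, map_one]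
    | mul x y _ _ hx hy =>
      obtain ⟨h1, h2⟩ := hx
      obtain ⟨h3, h4⟩ := hy
      have h : push (x * y) ∈ H := by rw [map_mul]; exact H.mul_mem h1 h3
      refine ⟨h, ?_⟩
      have e : (⟨push (x * y), h⟩ : H) = ⟨push x, h1⟩ * ⟨push y, h3⟩ :=
        Subtype.ext (map_mul _ _ _)
      rw [e, map_mul, h2, h4, one_mul]
    | inv x _ hx =>
      obtain ⟨h1, h2⟩ := hx
      have h : push x⁻¹ ∈ H := by rw [map_inv]; exact H.inv_mem h1
      refine ⟨h, ?_⟩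
      have e : (⟨push x⁻¹, h⟩ : H) = (⟨push x, h1⟩)⁻¹ := Subtype.ext (map_inv _ _)
      rw [e, map_inv, h2, inv_one]
  have hN : Fintype.card (Perm (Fin d)) ≠ 0 := Fintype.card_ne_zero
  obtain ⟨h1, h2⟩ := key (x ^ Fintype.card (Perm (Fin d))) (by
    rw [map_pow, pow_card_eq_one]; rfl)
  apply torsion_free hN
  have e : (⟨push x, hx⟩ : H) ^ Fintype.card (Perm (Fin d)) =
      ⟨push (x ^ Fintype.card (Perm (Fin d))), h1⟩ :=
    Subtype.ext (map_pow _ _ _).symm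
  rw [← map_pow, e, h2]

/-- Generation by simple curves moves from one point to another. -/
theorem ns_move {X : Type*} (ρ : SG g n →* Perm X) (x0 i : X) (h : SG g n) (hh : ρ h x0 = i)
    (hgen : ∀ x, ρ x x0 = x0 → x ∈ NS ρ x0) (x : SG g n) (hx : ρ x i = i) : x ∈ NS ρ i := by
  have hinv : ρ h⁻¹ i = x0 := by
    rw [map_inv, Perm.inv_eq_iff_eq]
    exact hh.symm
  have h1 : ρ (h⁻¹ * x * h) x0 = x0 := by
    rw [map_mul, map_mul, Perm.mul_apply, Perm.mul_apply, hh, hx, hinv]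
  have h2 := hgen _ h1
  have e : x = h * (h⁻¹ * x * h) * h⁻¹ := by group
  rw [e]
  generalize h⁻¹ * x * h = y at h2
  unfold NS at h2
  induction h2 using Subgroup.closure_induction with
  | mem y hy =>
    refine ns_mem (hy.1.conj h) ?_
    rw [map_mul, map_mul, Perm.mul_apply, Perm.mul_apply, hinv, hy.2, hh]
  | one =>
    have e1 : h * 1 * h⁻¹ = 1 := by group
    rw [e1]
    exact Subgroup.one_mem _
  | mul a b _ _ ha hb =>
    have e1 : h * (a * b) * h⁻¹ = (h * a * h⁻¹) * (h * b * h⁻¹) := by group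
    rw [e1]
    exact Subgroup.mul_mem _ ha hb
  | inv a _ ha =>
    have e1 : h * a⁻¹ * h⁻¹ = (h * a * h⁻¹)⁻¹ := by group
    rw [e1]
    exact Subgroup.inv_mem _ ha

theorem good_of {G : Type} [Group G] {d : ℕ} (θ : G →* Perm (Fin d)) (x0 : Fin d) (k m : ℕ)
    (hm0 : 0 < m) (hg : (k + 2) * (2 * m + 1) ≤ g) (ρ : SG g n →* G)
    (hc : ∀ i < 3, ∀ z : Fin d,
        (∃ v : SG g n, Sp (i * m) (i * m + m) v ∧ θ (ρ v) x0 = z) ∧
        ∃ t : SG g n, Sp (i * m) (i * m + m) t ∧ θ (ρ t) z = x0)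
    (hh : ∃ T : PMod g n, ∀ t < k + 2, θ (ρ (T.1 (sa t))) x0 = x0 ∧ θ (ρ (T.1 (sb t))) x0 = x0) :
    Good (g := g) (n := n) θ k ρ := by
  have h3 : 3 * m ≤ g := by nlinarith
  have hg3 : 3 ≤ g := by omega
  have hk : k + 2 ≤ g := by nlinarith
  have c0 := hc 0 (by omega)
  have c1 := hc 1 (by omega)
  have c2 := hc 2 (by omega)
  choose v0 sv0 hv0 using fun z => (c0 z).1
  choose t0 st0 ht0 using fun z => (c0 z).2
  choose v1 sv1 hv1 using fun z => (c1 z).1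
  choose t1 st1 ht1 using fun z => (c1 z).2
  choose v2 sv2 hv2 using fun z => (c2 z).1
  choose t2 st2 ht2 using fun z => (c2 z).2
  have e0 : 0 * m = 0 := zero_mul m
  have e0' : 0 * m + m = m := by ring
  have e1 : 1 * m = m := one_mul m
  have e1' : 1 * m + m = 2 * m := by ring
  have e2' : 2 * m + m = 3 * m := by ring
  rw [e0] at sv0 st0
  rw [zero_add] at sv0 st0
  rw [e1'] at sv1 st1
  rw [e1] at sv1 st1
  rw [e2'] at sv2 st2
  have gen0 : ∀ x, (θ.comp ρ) x x0 = x0 → x ∈ NS (θ.comp ρ) x0 :=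
    gen3 (θ.comp ρ) m hm0 h3 x0 v0 v1 v2 t0 t1 t2 sv0 sv1 sv2 st0 st1 st2 hv0 hv1 hv2 ht0 ht1 ht2
  have hgen : ∀ i x, (θ.comp ρ) x i = i → x ∈ NS (θ.comp ρ) i := fun i x hx =>
    ns_move (θ.comp ρ) x0 i (v0 i) (hv0 i) gen0 x hx
  refine ⟨?_, ?_⟩
  · intro i j
    refine ⟨(v0 j * (v0 i)⁻¹ : SG g n), ?_⟩
    show (θ.comp ρ) (v0 j * (v0 i)⁻¹) i = j
    have hinv : (θ.comp ρ) (v0 i)⁻¹ i = x0 := by
      rw [map_inv, Perm.inv_eq_iff_eq]
      exact (hv0 i).symm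
    rw [map_mul, Perm.mul_apply, hinv]
    exact hv0 j
  · intro i
    refine ⟨?_, ?_⟩
    · apply le_antisymm
      · intro x hx
        have h1 := hgen i x hx
        refine (Subgroup.closure_mono ?_ : NS (θ.comp ρ) i ≤ _) h1
        rintro y ⟨⟨T, hT⟩, hy⟩
        exact ⟨hy, T, hT⟩
      · rw [Subgroup.closure_le]
        rintro y ⟨hy, -⟩
        exact hy
    · rintro H hH (h1 | ⟨M, hM1, hM2, hM3, hM4⟩) f x hx
      · exact @kill_sg1 g n hg3 d (θ.comp ρ) i (hgen i) H hH (fun S hS => h1 S hS) f x hx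
      · have hP : HasHandles (stab (g := g) (n := n) θ ρ i) (k + 2) := by
          obtain ⟨T, hT⟩ := hh
          have hinv : (θ.comp ρ) (v0 i)⁻¹ i = x0 := by
            rw [map_inv, Perm.inv_eq_iff_eq]
            exact (hv0 i).symm
          have key : ∀ y : SG g n, (θ.comp ρ) y x0 = x0 →
              (θ.comp ρ) ((push (v0 i)).1 y) i = i := by
            intro y hy
            rw [push_apply, map_mul, map_mul, Perm.mul_apply, Perm.mul_apply, hinv, hy]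
            exact hv0 i
          exact ⟨push (v0 i) * T, fun t ht => ⟨key _ (hT t ht).1, key _ (hT t ht).2⟩⟩
        exact @main6 g n hg3 H hH M (stab (g := g) (n := n) θ ρ i) hM1 hM2 k hk hM3 hP hM4 f x hx

theorem count_good {G : Type} [Group G] [Finite G] {d : ℕ} (θ : G →* Perm (Fin d))
    (hθ : ∀ i j : Fin d, ∃ s, θ s i = j) (g n m k : ℕ) (h : (k + 2) * (2 * m + 1) ≤ g) :
    Nat.card {ρ : Pi1 g n →* G // ¬ Good θ k ρ} * (2 ^ m - 1) ≤
      (6 * d ^ 2 + 2 * (k + 2) * d) * (if n = 0 then Nat.card G ^ 2 else 1) *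
        Nat.card (Pi1 g n →* G) := by
  classical
  have := Fintype.ofFinite G
  rcases Nat.eq_zero_or_pos m with rfl | hm0
  · simp
  rcases Nat.eq_zero_or_pos d with rfl | hd
  · have hE : IsEmpty {ρ : Pi1 g n →* G // ¬ Good θ k ρ} :=
      ⟨fun ρ => ρ.2 ⟨fun i => i.elim0, fun i => i.elim0⟩⟩
    rw [Nat.card_of_isEmpty, zero_mul]
    exact Nat.zero_le _
  have h3 : 3 * m ≤ g := by nlinarith
  obtain ⟨A1, hA1, hA1'⟩ := cover_bad (g := g) (n := n) θ hθ ⟨0, hd⟩ m h3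
  obtain ⟨A2, hA2, hA2'⟩ := handle_bad (g := g) (n := n) θ hθ ⟨0, hd⟩ (k + 2) m h
  rw [Fintype.card_fin] at hA1 hA2
  have hfin := hom_finite g n G
  have h1 : Nat.card {ρ : Pi1 g n →* G // ¬ Good θ k ρ} ≤
      Nat.card {ρ : SG g n →* G // im ρ ∈ A1 ∪ A2} := by
    refine Nat.card_le_card_of_injective
      (fun ρ => (⟨ρ.1, ?_⟩ : {ρ : SG g n →* G // im ρ ∈ A1 ∪ A2})) ?_
    · by_contra hc
      rw [mem_union, not_or] at hc
      exact ρ.2 (good_of θ ⟨0, hd⟩ k m hm0 h ρ.1 (hA1' ρ.1 hc.1) (hA2' ρ.1 hc.2))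
    · intro ρ ρ' hρ
      exact Subtype.ext (congrArg (fun x : {ρ : SG g n →* G // im ρ ∈ A1 ∪ A2} => x.1) hρ)
  have h2 : (A1 ∪ A2).card * (2 ^ m - 1) ≤
      (6 * d ^ 2 + 2 * (k + 2) * d) * Fintype.card G ^ (2 * g) :=
    calc (A1 ∪ A2).card * (2 ^ m - 1) ≤ (A1.card + A2.card) * (2 ^ m - 1) :=
          Nat.mul_le_mul_right _ (card_union_le _ _)
      _ = A1.card * (2 ^ m - 1) + A2.card * (2 ^ m - 1) := by ring
      _ ≤ 6 * d ^ 2 * Fintype.card G ^ (2 * g) + 2 * (k + 2) * d * Fintype.card G ^ (2 * g) :=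
          Nat.add_le_add hA1 hA2
      _ = (6 * d ^ 2 + 2 * (k + 2) * d) * Fintype.card G ^ (2 * g) := by ring
  have h4 : Fintype.card G ^ (2 * g) * Fintype.card G ^ (n - 1) ≤
      (if n = 0 then Nat.card G ^ 2 else 1) * Nat.card (SG g n →* G) := by
    rw [← pow_add, Nat.card_eq_fintype_card (α := G)]
    split_ifs with hn
    · exact hom_lower g n G
    · rw [one_mul]
      exact hom_lower_pos g n (by omega) G
  calc Nat.card {ρ : Pi1 g n →* G // ¬ Good θ k ρ} * (2 ^ m - 1)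
      ≤ ((A1 ∪ A2).card * Fintype.card G ^ (n - 1)) * (2 ^ m - 1) :=
        Nat.mul_le_mul_right _ (h1.trans (hom_upper _))
    _ = (A1 ∪ A2).card * (2 ^ m - 1) * Fintype.card G ^ (n - 1) := by ring
    _ ≤ (6 * d ^ 2 + 2 * (k + 2) * d) * Fintype.card G ^ (2 * g) * Fintype.card G ^ (n - 1) :=
        Nat.mul_le_mul_right _ h2
    _ = (6 * d ^ 2 + 2 * (k + 2) * d) * (Fintype.card G ^ (2 * g) * Fintype.card G ^ (n - 1)) := by
        ring
    _ ≤ (6 * d ^ 2 + 2 * (k + 2) * d) *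
          ((if n = 0 then Nat.card G ^ 2 else 1) * Nat.card (SG g n →* G)) :=
        Nat.mul_le_mul_left _ h4
    _ = (6 * d ^ 2 + 2 * (k + 2) * d) * (if n = 0 then Nat.card G ^ 2 else 1) *
          Nat.card (SG g n →* G) := by ring

end Pool.Agent.RGD
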